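import Pool.Agent.Run7.h638.WR.Iface

/-!
# Piece `C1` of the project WR (MP_5885b3_lc): the list of the atoms
-/

set_option autoImplicit false

namespace Pool.Agent.Run7.h936.WR

open Pool.Agent.Run7.h638.WR

/-- membership of an element of a list -/
theorem mem_prim {α : Type*} [Primcodable α] :
    PrimrecPred (fun p : α × List α => p.1 ∈ p.2) := by
  have h : PrimrecRel (fun (L : List α) (b : α) => ∃ a ∈ L, a = b) :=
    PrimrecRel.exists_mem_list Primrec.eq
  exact (h.comp Primrec.snd Primrec.fst).of_eq (by
    intro p
    constructor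
    · rintro ⟨a, ha, rfl⟩
      exact ha
    · intro hp
      exact ⟨_, hp, rfl⟩)

/-- `flatMap` over a constant list -/
theorem flatMap_const {α β : Type*} [Primcodable α] [Primcodable β]
    (l : List ℕ) (f : ℕ → α → List β) (hf : ∀ i, Primrec (f i)) :
    Primrec (fun q => l.flatMap fun i => f i q) := by
  induction l with
  | nil => exact Primrec.const _
  | cons a l ih =>
      simp only [List.flatMap_cons]
      exact Primrec.list_append.comp (hf a) ih

theorem dd_cons (a : Atom) (l : List Atom) :
    dd (a :: l) = if a ∈ dd l then dd l else a :: dd l := rfl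

theorem mem_dd (l : List Atom) (a : Atom) : a ∈ dd l ↔ a ∈ l := by
  induction l with
  | nil => simp [dd]
  | cons b l ih =>
      rw [dd_cons]
      split_ifs with h
      · rw [ih, List.mem_cons]
        constructor
        · exact Or.inr
        · rintro (rfl | h')
          · exact ih.1 h
          · exact h'
      · rw [List.mem_cons, List.mem_cons, ih]

theorem nodup_dd (l : List Atom) : (dd l).Nodup := by
  induction l with
  | nil => simp [dd]
  | cons b l ih =>
      rw [dd_cons]
      split_ifs with h
      · exact ih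
      · exact List.nodup_cons.2 ⟨h, ih⟩

theorem dd_prim : Primrec dd := by
  unfold dd
  have hm : PrimrecPred (fun x : List Atom × Atom × List Atom => x.2.1 ∈ x.2.2) :=
    mem_prim.comp Primrec.snd
  exact Primrec.list_foldr (h := fun (_ : List Atom) (b : Atom × List Atom) =>
      if b.1 ∈ b.2 then b.2 else b.1 :: b.2) Primrec.id (Primrec.const [])
    (Primrec.ite hm (Primrec.snd.comp Primrec.snd)
      (Primrec.list_cons.comp (Primrec.fst.comp Primrec.snd) (Primrec.snd.comp Primrec.snd))).to₂

theorem prj_prim (i j : ℕ) : Primrec (prj i j) := by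
  unfold prj
  refine Primrec.pair (Primrec.pair (Primrec.fst.comp Primrec.fst) ?_) (Primrec.pair ?_ ?_)
  · split_ifs
    · exact Primrec.snd.comp Primrec.fst
    · exact Primrec.const _
  · split_ifs
    · exact Primrec.fst.comp Primrec.snd
    · exact Primrec.const _
  · split_ifs
    · exact Primrec.snd.comp Primrec.snd
    · exact Primrec.const _

theorem blk_prim (i j : ℕ) : Primrec (fun Q : List Win => blk Q i j) := by
  unfold blk
  split_ifs
  · exact Primrec.const _
  · exact Primrec.const _
  · exact Primrec.list_map Primrec.id ((prj_prim i j).comp Primrec.snd).to₂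
  · exact Primrec.const _

theorem atoms_prim : Primrec atoms := by
  unfold atoms
  refine dd_prim.comp (flatMap_const _ _ fun i => flatMap_const _ _ fun j => ?_)
  exact Primrec.list_map (blk_prim i j)
    (Primrec.pair (Primrec.const (i, j)) Primrec.snd).to₂

theorem mem_atoms (Q : List Win) (a : Atom) : a ∈ atoms Q ↔ Pool.Agent.Run7.h638.WR.IsAtom Q a := by
  unfold atoms Pool.Agent.Run7.h638.WR.IsAtom
  rw [mem_dd]
  simp only [List.mem_flatMap, List.mem_map, List.mem_range]
  constructor
  · rintro ⟨i, hi, j, hj, w, hw, rfl⟩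
    exact ⟨hi, hj, hw⟩
  · rintro ⟨hi, hj, hw⟩
    exact ⟨a.1.1, hi, a.1.2, hj, a.2, hw, rfl⟩

/-- Piece `C1`. -/
theorem t_C1 : C1 :=
  ⟨fun Q => ⟨nodup_dd _, mem_atoms Q⟩, atoms_prim⟩

end Pool.Agent.Run7.h936.WR
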