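import Pool.Agent.Run7.h936.WR.C1

/-!
# Piece `C4` of the project WR (MP_5885b3_lc): the code of the algebra is computable
-/

set_option autoImplicit false

namespace Pool.Agent.Run7.h936.WR

open Pool.Agent.Run7.h638.WR

theorem subs_prim (h3 : C3) : Primrec subs := by
  unfold subs
  exact (h3 Atom inferInstance).comp atoms_prim

theorem cmpL_prim (h2 : C2) :
    Primrec (fun x : List Win × (List Atom × List Atom) => cmpL x.1 x.2.1 x.2.2) := by
  classical
  have R1 : PrimrecRel (fun (b : Atom) (ac : Atom × Atom) => mul ac.1 b ac.2) :=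
    PrimrecPred.comp (f := fun y : Atom × (Atom × Atom) => ((y.2.1, (y.1, y.2.2)) : Atom × (Atom × Atom)))
      h2 (Primrec.pair (Primrec.fst.comp Primrec.snd)
        (Primrec.pair Primrec.fst (Primrec.snd.comp Primrec.snd)))
  have E1 := R1.exists_mem_list
  have R2 : PrimrecRel (fun (a : Atom) (Tc : List Atom × Atom) => ∃ b ∈ Tc.1, mul a b Tc.2) :=
    E1.comp (Primrec.fst.comp Primrec.snd)
      (Primrec.pair Primrec.fst (Primrec.snd.comp Primrec.snd))
  have E2 := R2.exists_mem_list
  have R3 : PrimrecRel (fun (c : Atom) (ST : List Atom × List Atom) =>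
      ∃ a ∈ ST.1, ∃ b ∈ ST.2, mul a b c) :=
    E2.comp (Primrec.fst.comp Primrec.snd)
      (Primrec.pair (Primrec.snd.comp Primrec.snd) Primrec.fst)
  have F := PrimrecRel.listFilter R3
  refine (F.comp (atoms_prim.comp Primrec.fst) Primrec.snd).of_eq fun x => ?_
  unfold cmpL
  congr 1

theorem impL_prim :
    Primrec (fun x : List Win × (List Atom × List Atom) => impL x.1 x.2.1 x.2.2) := by
  classical
  have R3 : PrimrecRel (fun (c : Atom) (ST : List Atom × List Atom) => c ∈ ST.1 → c ∈ ST.2) := by
    have a1 : PrimrecPred (fun x : Atom × (List Atom × List Atom) => x.1 ∈ x.2.1) :=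
      PrimrecPred.comp (f := fun x : Atom × (List Atom × List Atom) => (x.1, x.2.1)) mem_prim
        (Primrec.pair Primrec.fst (Primrec.fst.comp Primrec.snd))
    have a2 : PrimrecPred (fun x : Atom × (List Atom × List Atom) => x.1 ∈ x.2.2) :=
      PrimrecPred.comp (f := fun x : Atom × (List Atom × List Atom) => (x.1, x.2.2)) mem_prim
        (Primrec.pair Primrec.fst (Primrec.snd.comp Primrec.snd))
    exact (a1.not.or a2).of_eq fun x => by
      constructor
      · rintro (h | h) h'
        · exact absurd h' h
        · exact h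
      · intro h
        by_cases h' : x.1 ∈ x.2.1
        · exact Or.inr (h h')
        · exact Or.inl h'
  have F := PrimrecRel.listFilter R3
  refine (F.comp (atoms_prim.comp Primrec.fst) Primrec.snd).of_eq fun x => ?_
  unfold impL
  congr 1
  funext c
  congr

theorem tbl_aux {A C : Type} [Primcodable A] [Primcodable C] [DecidableEq C]
    (s : A → List (List C)) (hs : Primrec s) (d : List C) (g : A × (List C × List C) → List C)
    (hg : Primrec g) :
    Primrec (fun Q => (List.range ((s Q).length * (s Q).length)).map fun t =>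
      (s Q).findIdx fun u => decide (u = g (Q, ((s Q).getD (t / (s Q).length) d,
        (s Q).getD (t % (s Q).length) d)))) := by
  have hN : Primrec (fun Q => (s Q).length) := Primrec.list_length.comp hs
  have e1 : Primrec (fun x : A × ℕ => (s x.1).getD (x.2 / (s x.1).length) d) :=
    (Primrec.list_getD d).comp (hs.comp Primrec.fst)
        (Primrec.nat_div.comp Primrec.snd (hN.comp Primrec.fst))
  have e2 : Primrec (fun x : A × ℕ => (s x.1).getD (x.2 % (s x.1).length) d) :=
    (Primrec.list_getD d).comp (hs.comp Primrec.fst)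
        (Primrec.nat_mod.comp Primrec.snd (hN.comp Primrec.fst))
  have e3 : Primrec (fun x : A × ℕ => (x.1, ((s x.1).getD (x.2 / (s x.1).length) d,
        (s x.1).getD (x.2 % (s x.1).length) d))) :=
    Primrec.pair Primrec.fst (Primrec.pair e1 e2)
  have hF := hg.comp e3
  have e4 : PrimrecPred (fun y : (A × ℕ) × List C => y.2 = g (y.1.1,
      ((s y.1.1).getD (y.1.2 / (s y.1.1).length) d, (s y.1.1).getD (y.1.2 % (s y.1.1).length) d))) :=
    Primrec.eq.comp (Primrec.snd (α := A × ℕ) (β := List C)) (hF.comp Primrec.fst)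
  refine Primrec.list_map (Primrec.list_range.comp (Primrec.nat_mul.comp hN hN)) ?_
  exact Primrec.list_findIdx (hs.comp Primrec.fst) e4.decide.to₂

attribute [local irreducible] subs atoms

theorem tbl_prim (h3 : C3) (f : List Win → List Atom → List Atom → List Atom)
    (hf : Primrec fun x : List Win × (List Atom × List Atom) => f x.1 x.2.1 x.2.2) :
    Primrec (fun Q => tbl Q (f Q)) := by
  have h := tbl_aux (A := List Win) (C := Atom) subs (subs_prim h3) []
    (fun x : List Win × (List Atom × List Atom) => f x.1 x.2.1 x.2.2) hf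
  exact h

/-- The code is primitive recursive. -/
theorem code_prim (h2 : C2) (h3 : C3) : Primrec code := by
  have h1 : Primrec (fun Q => (subs Q).length - 1) :=
    Primrec.nat_sub.comp (Primrec.list_length.comp (subs_prim h3)) (Primrec.const 1)
  have t1 : Primrec (fun Q => tbl Q (cmpL Q)) := tbl_prim h3 cmpL (cmpL_prim h2)
  have t2 : Primrec (fun Q => tbl Q (impL Q)) := tbl_prim h3 impL impL_prim
  exact Primrec.pair h1 (Primrec.pair t1 t2)

/-- Piece `C4`. -/
theorem t_C4 : C4 := fun _ h2 h3 => (code_prim h2 h3).to_comp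

end Pool.Agent.Run7.h936.WR
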