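import Pool.Agent.Run7.h638.WR.Iface

/-!
# Piece `O2` of the project WR (MP_5885b3_lc): the computable list of the allowed tiles
-/

set_option autoImplicit false

namespace Pool.Agent.Run7.h936.WR

open Pool.Agent.Run7.h638.WR Turing Turing.PartrecToTM2

theorem fin_St : Finite Pool.Agent.Run7.h638.WR.St := by
  refine Finite.of_surjective (fun i : Fin 3 => match i with
    | 0 => Pool.Agent.Run7.h638.WR.St.run
    | 1 => Pool.Agent.Run7.h638.WR.St.sx
    | 2 => Pool.Agent.Run7.h638.WR.St.sb) ?_
  intro s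
  cases s
  · exact ⟨0, rfl⟩
  · exact ⟨1, rfl⟩
  · exact ⟨2, rfl⟩

theorem fin_K' : Finite K' := by
  refine Finite.of_surjective (fun i : Fin 4 => match i with
    | 0 => K'.main
    | 1 => K'.rev
    | 2 => K'.aux
    | 3 => K'.stack) ?_
  intro s
  cases s
  · exact ⟨0, rfl⟩
  · exact ⟨1, rfl⟩
  · exact ⟨2, rfl⟩
  · exact ⟨3, rfl⟩

theorem fin_Base (Q : Type) [Finite Q] : Finite (Base K' (Option Γ') Q) := by
  haveI := fin_St
  haveI := fin_K'
  haveI : Finite Γ' := inferInstance
  refine Finite.of_surjective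
    (fun x : Option ((Pool.Agent.Run7.h638.WR.St × Q) ⊕
        (Pool.Agent.Run7.h638.WR.St × Q × (K' → Option (Option Γ')))) => match x with
      | none => Base.J
      | some (Sum.inl p) => Base.ctl p.1 p.2
      | some (Sum.inr p) => Base.cell p.1 p.2.1 p.2.2) ?_
  intro s
  cases s with
  | J => exact ⟨none, rfl⟩
  | ctl s q => exact ⟨some (Sum.inl (s, q)), rfl⟩
  | cell s q l => exact ⟨some (Sum.inr (s, q, l)), rfl⟩

/-- the letters of the main stack -/
def dc (i : Fin 4) : Option Γ' :=
  if i = 0 then some Γ'.bit0 else if i = 1 then some Γ'.bit1 else if i = 2 then some Γ'.cons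
    else none

/-- the coded main stack -/
def mst (g : ℕ → List Bool) (n : ℕ) : List (Fin 4) :=
  (g n).map (fun b => cond b 1 0) ++ [2, 3]

theorem mst_prim {g : ℕ → List Bool} (hg : Primrec g) : Primrec (mst g) := by
  unfold mst
  exact Primrec.list_append.comp
    (Primrec.list_map hg ((Primrec.dom_bool (fun b => cond b (1 : Fin 4) 0)).comp Primrec.snd).to₂)
    (Primrec.const _)

theorem start_main {g : ℕ → List Bool}
    (hg : ∀ n, trNat n = (g n).map (fun b => cond b Γ'.bit1 Γ'.bit0)) (n : ℕ) :
    Pool.Agent.H662R2.SM.start n K'.main = (mst g n).map dc := by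
  unfold Pool.Agent.H662R2.SM.start mst
  rw [Function.update_self, hg n, List.map_append, List.map_map, List.map_map]
  congr 1
  refine List.map_congr_left fun b _ => ?_
  cases b <;> simp [dc]

theorem start_other {k : K'} (hk : k ≠ K'.main) (n : ℕ) :
    Pool.Agent.H662R2.SM.start n k = [none] := by
  unfold Pool.Agent.H662R2.SM.start
  rw [Function.update_of_ne hk]

/-- the letter function of a column -/
def lf (p : Option (Fin 4) × Bool) (k : K') : Option (Option Γ') :=
  if k = K'.main then p.1.map dc else if p.2 then some none else none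

theorem lf_eq {g : ℕ → List Bool}
    (hg : ∀ n, trNat n = (g n).map (fun b => cond b Γ'.bit1 Γ'.bit0)) (n j : ℕ) (hj : j ≠ 0) :
    (fun k => (Pool.Agent.H662R2.SM.start n k)[j - 1]?) =
      lf ((mst g n)[j - 1]?, decide (j = 1)) := by
  funext k
  unfold lf
  split_ifs with h1 h2
  · subst h1
    rw [start_main hg, List.getElem?_map]
  · have : j = 1 := by simpa using h2
    subst this
    rw [start_other h1]
    rfl
  · have h3 : j ≠ 1 := by simpa using h2
    rw [start_other h1]
    obtain ⟨i, rfl⟩ : ∃ i, j = i + 2 := ⟨j - 2, by omega⟩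
    simp

/-- the number of the tile of the column `j` of the start row -/
def num {Q : Type} (q0 : Q) (e : Base K' (Option Γ') Q → ℕ) (g : ℕ → List Bool) (n j : ℕ) : ℕ :=
  if j = 0 then e (.ctl .sx q0) else e (.cell .sx q0 (lf ((mst g n)[j - 1]?, decide (j = 1))))

theorem num_eq {Q : Type} (q0 : Q) (e : Base K' (Option Γ') Q → ℕ) {g : ℕ → List Bool}
    (hg : ∀ n, trNat n = (g n).map (fun b => cond b Γ'.bit1 Γ'.bit0)) (n j : ℕ) :
    num q0 e g n j = e (srow q0 (Pool.Agent.H662R2.SM.start n) j) := by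
  unfold num srow
  split_ifs with h
  · rfl
  · rw [lf_eq hg n j h]

theorem num_prim {Q : Type} (q0 : Q) (e : Base K' (Option Γ') Q → ℕ) {g : ℕ → List Bool}
    (hg : Primrec g) : Primrec₂ (num q0 e g) := by
  have hH : Primrec (fun p : Option (Fin 4) × Bool => e (.cell .sx q0 (lf p))) :=
    Primrec.dom_finite _
  have h1 : Primrec (fun x : ℕ × ℕ => (mst g x.1)[x.2 - 1]?) :=
    Primrec.list_getElem?.comp ((mst_prim hg).comp Primrec.fst)
      (Primrec.nat_sub.comp Primrec.snd (Primrec.const 1))
  have h2 : Primrec (fun x : ℕ × ℕ => decide (x.2 = 1)) :=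
    PrimrecPred.decide (Primrec.eq.comp Primrec.snd (Primrec.const 1))
  have h3 : PrimrecPred (fun x : ℕ × ℕ => x.2 = 0) :=
    Primrec.eq.comp Primrec.snd (Primrec.const 0)
  exact (Primrec.ite h3 (Primrec.const (e (.ctl .sx q0))) (hH.comp (Primrec.pair h1 h2))).to₂

/-- Piece `O2`. -/
theorem t_O2 : O2 := by
  rintro ⟨g, gp, hg⟩ Q hQ q0 e
  haveI := fin_Base Q
  have hfin : Set.Finite {x : Tile | x.2 = 0 ∧ ∃ θ : Base K' (Option Γ') Q, NS θ ∧ x.1 = e θ} := by
    refine (Set.finite_range (fun θ : Base K' (Option Γ') Q => ((e θ, 0) : Tile))).subset ?_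
    rintro ⟨a, b⟩ ⟨h1, θ, -, h2⟩
    exact ⟨θ, by simp only at h1 h2; rw [h1, h2]⟩
  refine ⟨fun n => hfin.toFinset.toList ++ (List.range ((g n).length + 3)).map
    (fun j => (num q0 e g n j, j + 1)), ?_, ?_⟩
  · refine Primrec.to_comp ?_
    refine Primrec.list_append.comp (Primrec.const _) ?_
    refine Primrec.list_map (Primrec.list_range.comp
      (Primrec.nat_add.comp (Primrec.list_length.comp gp) (Primrec.const 3))) ?_
    exact (Primrec.pair (num_prim q0 e gp) (Primrec.succ.comp Primrec.snd)).to₂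
  · intro n x
    rw [List.mem_append, Finset.mem_toList, Set.Finite.mem_toFinset, List.mem_map]
    unfold TileOk
    have hl : (trNat n).length = (g n).length := by rw [hg n, List.length_map]
    rw [hl]
    refine or_congr Iff.rfl ?_
    constructor
    · rintro ⟨j, hj, rfl⟩
      rw [List.mem_range] at hj
      refine ⟨by simp, by simp only; omega, ?_⟩
      simp only [Nat.add_sub_cancel]
      exact num_eq q0 e hg n j
    · rintro ⟨h1, h2, h3⟩
      refine ⟨x.2 - 1, List.mem_range.2 (by omega), ?_⟩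
      rw [num_eq q0 e hg, ← h3]
      ext
      · rfl
      · simp only; omega

end Pool.Agent.Run7.h936.WR
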